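import Pool.Agent.Lib.MP_691331_co.GpMain

set_option autoImplicit false

namespace Pool.Agent.Results.MP_691331_co.GeneralPositionHolds

open Pool.Agent.Lib.MP_691331_co

theorem result (V : Type) [Fintype V] (G : SimpleGraph V) :
    chiGp G + chiGp Gᶜ ≤ Fintype.card V + 1 :=
  nordhaus_gaddum_gp G

end Pool.Agent.Results.MP_691331_co.GeneralPositionHolds
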