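import Pool.Agent.Lib.MP_691331_co.MpLower

set_option autoImplicit false

namespace Pool.Agent.Results.MP_691331_co.MonophonicFails

open Pool.Agent.Lib.MP_691331_co

theorem result (n : ℕ) (hn : 2 ^ 50 ≤ n) :
    ∃ (V : Type) (_ : Fintype V) (G : SimpleGraph V), Fintype.card V = n ∧ G.Connected ∧
      Gᶜ.Connected ∧ 3 * n ≤ 2 * (chiMp G + chiMp Gᶜ) + 200 * Nat.log 2 n := by
  have h1 : 50 ≤ Nat.log 2 n := Nat.le_log_of_pow_le one_lt_two hn
  have h2 := Nat.pow_log_le_self 2 (by omega : n ≠ 0)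
  have h3 := Nat.lt_pow_succ_log_self one_lt_two n
  generalize Nat.log 2 n = l at h1 h2 h3
  have h4 := growth l h1
  have h5 := Nat.le_self_pow (by norm_num : 4 ≠ 0) ((3 * (l + 1) + 52) * 16)
  obtain ⟨B, h6, h7, h8⟩ := exists_code (α := Fin (3 * (l + 1) + 52)) (β := Fin 16) (a := l + 1)
    (N := n - (3 * (l + 1) + 52) * 16) (by simp) (by simp) (by omega) (by omega)
  have h9 := inc_lower (A := l + 1 + 16) (by simp; omega) h7 h8
  refine ⟨_, inferInstance, inc B, ?_, inc_conn h8, inc_compl_conn, by omega⟩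
  simp only [Fintype.card_sum, Fintype.card_prod, Fintype.card_fin, Fintype.card_coe, h6]
  omega

end Pool.Agent.Results.MP_691331_co.MonophonicFails
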