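import Pool.Agent.Lib.MP_691331_co.MpUpper

set_option autoImplicit false

namespace Pool.Agent.Results.MP_691331_co.MonophonicUpper

open Pool.Agent.Lib.MP_691331_co

theorem result (V : Type) [Fintype V] (G : SimpleGraph V) :
    2 * (chiMp G + chiMp Gᶜ) + Nat.log 8 (Fintype.card V / 3) ≤ 3 * Fintype.card V + 1 := by
  classical
  rcases Nat.eq_zero_or_pos (Fintype.card V / 3) with h | h
  · obtain ⟨k₁, k₂, h1, h2, h3⟩ := cov_base G Finset.univ
    have := h1.chi_le
    have := h2.chi_le
    rw [Finset.card_univ] at h3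
    rw [h, Nat.log_zero_right]
    omega
  · have := Nat.pow_log_le_self 8 h.ne'
    exact sum_le G _ (by omega)

end Pool.Agent.Results.MP_691331_co.MonophonicUpper
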